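import Mathlib

/-!
The dual operators `D i` on functions on words in four nodes `a, p, b, tau = 0, 1, 2, 3`, and
nonvanishing of their iterates, by pairing with right-normed commutators and a six-dimensional
representation over the field with two elements (affine type `A_5^(2)` modulo two).
-/

namespace Pool.Agent.H6.FK

/-- the table of the action of nodes on nodes -/
def Mm (i j : Fin 4) : ZMod 2 := if (i = 2 ∧ j ≠ 2) ∨ (j = 2 ∧ (i = 0 ∨ i = 1)) then 1 else 0

theorem Mm_self : ∀ i : Fin 4, Mm i i = 0 := by decide

/-- number (mod 2) of letters acting on `i` -/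
def ncnt (i : Fin 4) : List (Fin 4) → ZMod 2
  | [] => 0
  | j :: w => Mm j i + ncnt i w

/-- the operator `D i` -/
def D (i : Fin 4) : List (Fin 4) → (List (Fin 4) → ZMod 2) → ZMod 2
  | [], _ => 0
  | j :: w, v => (if j = i then ncnt i w else 0) * v w + D i w (fun u => v (j :: u))

/-- deletion of a letter `i` -/
def dd (i : Fin 4) : List (Fin 4) → (List (Fin 4) → ZMod 2) → ZMod 2
  | [], _ => 0
  | j :: w, v => (if j = i then 1 else 0) * v w + dd i w (fun u => v (j :: u))

/-- pairing with the right-normed commutator of a word -/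
def hat : List (Fin 4) → (List (Fin 4) → ZMod 2) → ZMod 2
  | [], _ => 0
  | [b], v => v [b]
  | b :: c :: t, v => hat (c :: t) (fun u => v (b :: u)) + hat (c :: t) (fun u => v (u ++ [b]))

theorem hat_add (c : List (Fin 4)) : ∀ v w : List (Fin 4) → ZMod 2,
    hat c (fun u => v u + w u) = hat c v + hat c w := by
  induction c with
  | nil => intro v w; simp [hat]
  | cons b c ih =>
    intro v w
    cases c with
    | nil => simp [hat]
    | cons c t =>
      simp only [hat]
      rw [ih, ih]; ring

theorem hat_smul (c : List (Fin 4)) : ∀ (a : ZMod 2) (v : List (Fin 4) → ZMod 2),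
    hat c (fun u => a * v u) = a * hat c v := by
  induction c with
  | nil => intro v w; simp [hat]
  | cons b c ih =>
    intro a v
    cases c with
    | nil => simp [hat]
    | cons c t =>
      simp only [hat]
      rw [ih, ih]; ring

theorem hat_cons (b : Fin 4) (c : List (Fin 4)) (hc : c ≠ []) (v : List (Fin 4) → ZMod 2) :
    hat (b :: c) v = hat c (fun u => v (b :: u)) + hat c (fun u => v (u ++ [b])) := by
  cases c with
  | nil => exact absurd rfl hc
  | cons c t => rfl

theorem hat_zero (c : List (Fin 4)) : hat c (fun _ => 0) = 0 := by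
  have := hat_smul c 0 (fun _ => 0)
  simpa using this

theorem D_add (i : Fin 4) (w : List (Fin 4)) : ∀ v v' : List (Fin 4) → ZMod 2,
    D i w (fun u => v u + v' u) = D i w v + D i w v' := by
  induction w with
  | nil => intro v v'; simp [D]
  | cons j w ih => intro v v'; simp only [D]; rw [ih]; ring

theorem ncnt_append (i b : Fin 4) (w : List (Fin 4)) :
    ncnt i (w ++ [b]) = ncnt i w + Mm b i := by
  induction w with
  | nil => simp [ncnt]
  | cons j w ih => simp only [List.cons_append, ncnt, ih]; ring

theorem dd_append (i b : Fin 4) (w : List (Fin 4)) : ∀ v : List (Fin 4) → ZMod 2,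
    dd i (w ++ [b]) v = dd i w (fun u => v (u ++ [b])) + (if b = i then 1 else 0) * v w := by
  induction w with
  | nil => intro v; simp [dd]
  | cons j w ih =>
    intro v
    simp only [List.cons_append, dd]
    rw [ih]; ring

theorem D_append (i b : Fin 4) (w : List (Fin 4)) : ∀ v : List (Fin 4) → ZMod 2,
    D i (w ++ [b]) v = D i w (fun u => v (u ++ [b])) +
      Mm b i * dd i w (fun u => v (u ++ [b])) := by
  induction w with
  | nil => intro v; simp [D, dd, ncnt]
  | cons j w ih =>
    intro v
    simp only [List.cons_append, D, dd]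
    rw [ih, ncnt_append]
    split_ifs <;> ring

theorem hat_dd (i : Fin 4) (c : List (Fin 4)) : ∀ (_ : 2 ≤ c.length)
    (v : List (Fin 4) → ZMod 2), hat c (fun u => dd i u v) = 0 := by
  induction c with
  | nil => intro h; simp at h
  | cons b c ih =>
    intro h v
    have hc : c ≠ [] := by rintro rfl; simp at h
    rw [hat_cons b c hc]
    have e1 : (fun u => dd i (b :: u) v) =
        fun u => (if b = i then 1 else 0) * v u + dd i u (fun u => v (b :: u)) := rfl
    have e2 : (fun u => dd i (u ++ [b]) v) =
        fun u => dd i u (fun u => v (u ++ [b])) + (if b = i then 1 else 0) * v u := by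
      funext u; exact dd_append i b u v
    rw [e1, e2, hat_add, hat_add]
    have h2 : ∀ x y z : ZMod 2, x + y + (z + x) = y + z := by decide
    rw [h2]
    by_cases hl : 2 ≤ c.length
    · rw [ih hl, ih hl]; simp
    · match c, hc with
      | [c], _ =>
        simp only [hat, dd, List.nil_append]
        have h3 : ∀ x y z : ZMod 2, x * y + 0 + (x * y + 0) = 0 := by decide
        exact h3 _ _ 0
      | c :: c' :: t, _ => simp at hl

theorem hat_ncnt (i : Fin 4) (c : List (Fin 4)) : ∀ (a : ZMod 2)
    (v : List (Fin 4) → ZMod 2), hat c (fun u => (a + ncnt i u) * v u) =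
      (a + ncnt i c) * hat c v := by
  induction c with
  | nil => intro a v; simp [hat]
  | cons b c ih =>
    intro a v
    cases c with
    | nil => simp [hat]
    | cons c t =>
      rw [hat_cons b (c :: t) (by simp), hat_cons b (c :: t) (by simp) v]
      have e1 : (fun u => (a + ncnt i (b :: u)) * v (b :: u)) =
          fun u => ((a + Mm b i) + ncnt i u) * v (b :: u) := by
        funext u; simp only [ncnt]; ring
      have e2 : (fun u => (a + ncnt i (u ++ [b])) * v (u ++ [b])) =
          fun u => ((a + Mm b i) + ncnt i u) * v (u ++ [b]) := by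
        funext u; rw [ncnt_append]; ring
      rw [e1, e2, ih, ih]
      simp only [ncnt]
      ring

abbrev M6 := Matrix (Fin 6) (Fin 6) (ZMod 2)

/-- the pairs of indices of the generators -/
def tab : Fin 4 → List (Fin 6 × Fin 6) :=
  ![[(3, 1), (4, 0)], [(0, 1), (4, 3)], [(1, 2), (5, 4)], [(2, 5)]]

/-- image of the generator -/
def gX (b : Fin 4) : M6 := fun i j => if (i, j) ∈ tab b then 1 else 0

/-- the transposed matrix -/
def gF (b : Fin 4) : M6 := fun i j => if (j, i) ∈ tab b then 1 else 0

/-- the weight matrix -/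
def gH (b : Fin 4) : M6 := gF b * gX b + gX b * gF b

/-- image of right-normed commutators -/
def rho : List (Fin 4) → M6
  | [] => 0
  | [b] => gX b
  | b :: c :: t => gX b * rho (c :: t) + rho (c :: t) * gX b

theorem rho_cons (b : Fin 4) (c : List (Fin 4)) (hc : c ≠ []) :
    rho (b :: c) = gX b * rho c + rho c * gX b := by
  cases c with
  | nil => exact absurd rfl hc
  | cons c t => rfl

theorem gF_gX : ∀ i b : Fin 4, gF i * gX b + gX b * gF i = if b = i then gH i else 0 := by
  decide +kernel

theorem gH_gX : ∀ i b : Fin 4, gH i * gX b + gX b * gH i = Mm b i • gX b := by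
  decide +kernel

theorem M6_add_self (m : M6) : m + m = 0 := by
  ext i j
  have : ∀ x : ZMod 2, x + x = 0 := by decide
  exact this _

theorem jac (f x r : M6) : f * (x * r + r * x) + (x * r + r * x) * f =
    ((f * x + x * f) * r + r * (f * x + x * f)) +
      (x * (f * r + r * f) + (f * r + r * f) * x) := by
  have h2 := M6_add_self (x * f * r)
  have h3 := M6_add_self (r * f * x)
  have : ((f * x + x * f) * r + r * (f * x + x * f)) +
      (x * (f * r + r * f) + (f * r + r * f) * x) =
      f * (x * r + r * x) + (x * r + r * x) * f + (x * f * r + x * f * r) +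
        (r * f * x + r * f * x) := by noncomm_ring
  rw [this, h2, h3]; simp

theorem gH_rho (i : Fin 4) (c : List (Fin 4)) :
    gH i * rho c + rho c * gH i = ncnt i c • rho c := by
  induction c with
  | nil => simp [rho]
  | cons b c ih =>
    by_cases hc : c = []
    · subst hc
      simp only [rho, ncnt]
      rw [gH_gX, add_zero]
    · rw [rho_cons b c hc, jac, gH_gX, ih]
      simp only [ncnt]
      rw [add_smul, smul_mul_assoc, mul_smul_comm, mul_smul_comm, smul_mul_assoc, ← smul_add,
        ← smul_add]

theorem hat_D (i : Fin 4) (c : List (Fin 4)) : ∀ (_ : 2 ≤ c.length)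
    (v : List (Fin 4) → ZMod 2) (θ : M6 →ₗ[ZMod 2] ZMod 2)
    (_ : ∀ c' : List (Fin 4), c'.length + 1 = c.length → hat c' v = θ (rho c')),
    hat c (fun u => D i u v) = θ (gF i * rho c + rho c * gF i) := by
  induction c with
  | nil => intro h; simp at h
  | cons b c ih =>
    intro h v θ hv
    have hc : c ≠ [] := by rintro rfl; simp at h
    rw [hat_cons b c hc, rho_cons b c hc, jac, gF_gX]
    have e1 : (fun u => D i (b :: u) v) =
        fun u => (if b = i then 1 else 0) * ((0 + ncnt i u) * v u) +
          D i u (fun u => v (b :: u)) := by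
      funext u; simp only [D]; split_ifs <;> ring
    have e2 : (fun u => D i (u ++ [b]) v) =
        fun u => D i u (fun u => v (u ++ [b])) +
          Mm b i * dd i u (fun u => v (u ++ [b])) := by
      funext u; exact D_append i b u v
    rw [e1, e2, hat_add, hat_smul, hat_ncnt, hat_add, hat_smul]
    have hcv : hat c v = θ (rho c) := hv c (by simp)
    by_cases hl : 2 ≤ c.length
    · rw [hat_dd i c hl]
      have e3 := hat_add c (fun u => D i u (fun u => v (b :: u)))
        (fun u => D i u (fun u => v (u ++ [b])))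
      have e4 : (fun u => D i u (fun u => v (b :: u)) + D i u (fun u => v (u ++ [b]))) =
          fun u => D i u (fun u => v (b :: u) + v (u ++ [b])) := by
        funext u; rw [D_add]
      let θ' : M6 →ₗ[ZMod 2] ZMod 2 :=
        θ.comp (LinearMap.mulLeft (ZMod 2) (gX b) + LinearMap.mulRight (ZMod 2) (gX b))
      have hθ' : ∀ r, θ' r = θ (gX b * r + r * gX b) := fun r => rfl
      have e5 := ih hl (fun u => v (b :: u) + v (u ++ [b])) θ' (by
        intro c' hc'
        have hc0 : c' ≠ [] := by rintro rfl; simp at hc'; omega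
        rw [hat_add, ← hat_cons b c' hc0, hv (b :: c') (by simpa using hc'), hθ',
          rho_cons b c' hc0])
      rw [e4, e5, hθ'] at e3
      have e6 : ∀ x y z : ZMod 2, x + y + (z + 0) = x + (y + z) := by decide
      rw [mul_zero, e6, ← e3, hcv, map_add]
      split_ifs
      · rw [gH_rho]
        simp only [map_add, map_smul, zero_add, one_mul, smul_eq_mul]
      · simp
    · match c, hc with
      | [c], _ =>
        have hb : v [b] = θ (gX b) := hv [b] (by simp)
        have hc' : v [c] = θ (gX c) := hcv
        simp only [hat, D, dd, ncnt, rho, List.nil_append]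
        rw [gF_gX, hb, hc']
        have e7 : (if b = i then gH i else 0) * gX c + gX c * (if b = i then gH i else 0) =
          if b = i then Mm c i • gX c else 0 := by
          split_ifs with h1
          · rw [gH_gX]
          · simp
        have e8 : gX b * (if c = i then gH i else 0) + (if c = i then gH i else 0) * gX b =
          if c = i then Mm b i • gX b else 0 := by
          rw [add_comm]
          split_ifs with h1
          · rw [gH_gX]
          · simp
        rw [e7, e8, map_add]
        split_ifs <;> simp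
      | c :: c' :: t, _ => simp at hl

/-- the sequence of functions -/
def vs : ℕ → List (Fin 4) → ZMod 2
  | 0 => fun u => if u = [2] then 1 else 0
  | m + 1 => fun u => D 2 u (fun u => D 1 u (fun u => D 2 u (fun u => D 3 u (fun u =>
      D 0 u (vs m)))))

/-- the sequence of commutators -/
def cs : ℕ → List (Fin 4)
  | 0 => [2]
  | m + 1 => 2 :: 1 :: 2 :: 3 :: 0 :: cs m

theorem cs_length (m : ℕ) : (cs m).length = 5 * m + 1 := by
  induction m with
  | zero => rfl
  | succ m ih => simp only [cs, List.length_cons, ih]; ring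

/-- matrix entry as a linear map -/
def ent (i j : Fin 6) : M6 →ₗ[ZMod 2] ZMod 2 where
  toFun m := m i j
  map_add' _ _ := rfl
  map_smul' _ _ := rfl

theorem ent_apply (i j : Fin 6) (m : M6) : ent i j m = m i j := rfl

theorem M6_sum (f : Fin 6 → ZMod 2) : ∑ i, f i = f 0 + f 1 + f 2 + f 3 + f 4 + f 5 :=
  Fin.sum_univ_six f

theorem e1 (r : M6) : ent 1 2 (gF 0 * r + r * gF 0) = ent 3 2 r := by
  rw [ent_apply, ent_apply, Matrix.add_apply, Matrix.mul_apply, Matrix.mul_apply]
  simp [M6_sum, gF, tab]

theorem e2 (r : M6) : ent 3 2 (gF 3 * r + r * gF 3) = ent 3 5 r := by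
  rw [ent_apply, ent_apply, Matrix.add_apply, Matrix.mul_apply, Matrix.mul_apply]
  simp [M6_sum, gF, tab]

theorem e3 (r : M6) : ent 3 5 (gF 2 * r + r * gF 2) = ent 3 4 r := by
  rw [ent_apply, ent_apply, Matrix.add_apply, Matrix.mul_apply, Matrix.mul_apply]
  simp [M6_sum, gF, tab]

theorem e4 (r : M6) : ent 3 4 (gF 1 * r + r * gF 1) = (ent 3 3 + ent 4 4) r := by
  rw [LinearMap.add_apply, ent_apply, ent_apply, ent_apply, Matrix.add_apply, Matrix.mul_apply,
    Matrix.mul_apply]
  simp [M6_sum, gF, tab]
  ring

theorem e5 (r : M6) : (ent 3 3 + ent 4 4) (gF 2 * r + r * gF 2) = ent 5 4 r := by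
  rw [LinearMap.add_apply, ent_apply, ent_apply, ent_apply, Matrix.add_apply, Matrix.mul_apply,
    Matrix.mul_apply, Matrix.add_apply, Matrix.mul_apply, Matrix.mul_apply]
  simp [M6_sum, gF, tab]

theorem e6 (r : M6) : ent 5 4 (gF 0 * r + r * gF 0) = ent 5 0 r := by
  rw [ent_apply, ent_apply, Matrix.add_apply, Matrix.mul_apply, Matrix.mul_apply]
  simp [M6_sum, gF, tab]

theorem e7 (r : M6) : ent 5 0 (gF 3 * r + r * gF 3) = ent 2 0 r := by
  rw [ent_apply, ent_apply, Matrix.add_apply, Matrix.mul_apply, Matrix.mul_apply]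
  simp [M6_sum, gF, tab]

theorem e8 (r : M6) : ent 2 0 (gF 2 * r + r * gF 2) = ent 1 0 r := by
  rw [ent_apply, ent_apply, Matrix.add_apply, Matrix.mul_apply, Matrix.mul_apply]
  simp [M6_sum, gF, tab]

theorem e9 (r : M6) : ent 1 0 (gF 1 * r + r * gF 1) = (ent 0 0 + ent 1 1) r := by
  rw [LinearMap.add_apply, ent_apply, ent_apply, ent_apply, Matrix.add_apply, Matrix.mul_apply,
    Matrix.mul_apply]
  simp [M6_sum, gF, tab]

theorem e10 (r : M6) : (ent 0 0 + ent 1 1) (gF 2 * r + r * gF 2) = ent 1 2 r := by
  rw [LinearMap.add_apply, ent_apply, ent_apply, ent_apply, Matrix.add_apply, Matrix.mul_apply,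
    Matrix.mul_apply, Matrix.add_apply, Matrix.mul_apply, Matrix.mul_apply]
  simp [M6_sum, gF, tab]

theorem hat_step (v : List (Fin 4) → ZMod 2) (n : ℕ) (hn : 1 ≤ n) (i : Fin 4)
    (θ θ' : M6 →ₗ[ZMod 2] ZMod 2) (hθ : ∀ r, θ (gF i * r + r * gF i) = θ' r)
    (h : ∀ c : List (Fin 4), c.length = n → hat c v = θ (rho c)) :
    ∀ c : List (Fin 4), c.length = n + 1 → hat c (fun u => D i u v) = θ' (rho c) := by
  intro c hc
  rw [hat_D i c (by omega) v θ (fun c' hc' => h c' (by omega)), hθ]

theorem hat_vs (m : ℕ) : (∀ c : List (Fin 4), c.length = 5 * (2 * m) + 1 →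
    hat c (vs (2 * m)) = ent 1 2 (rho c)) ∧ (∀ c : List (Fin 4),
      c.length = 5 * (2 * m + 1) + 1 → hat c (vs (2 * m + 1)) = ent 5 4 (rho c)) := by
  have odd : ∀ m : ℕ, (∀ c : List (Fin 4), c.length = 5 * (2 * m) + 1 →
      hat c (vs (2 * m)) = ent 1 2 (rho c)) → (∀ c : List (Fin 4),
      c.length = 5 * (2 * m + 1) + 1 → hat c (vs (2 * m + 1)) = ent 5 4 (rho c)) := by
    intro m h0
    have h1 := hat_step _ _ (by omega) 0 _ _ e1 h0
    have h2 := hat_step _ _ (by omega) 3 _ _ e2 h1
    have h3 := hat_step _ _ (by omega) 2 _ _ e3 h2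
    have h4 := hat_step _ _ (by omega) 1 _ _ e4 h3
    exact hat_step _ _ (by omega) 2 _ _ e5 h4
  induction m with
  | zero =>
    have h0 : ∀ c : List (Fin 4), c.length = 5 * (2 * 0) + 1 →
        hat c (vs (2 * 0)) = ent 1 2 (rho c) := by
      intro c hc
      match c with
      | [] => simp at hc
      | [b] =>
        simp only [hat, vs, rho, ent]
        revert b; decide +kernel
      | b :: c :: t => simp at hc
    exact ⟨h0, odd 0 h0⟩
  | succ m ih =>
    have h0 := ih.2
    have h1 := hat_step _ _ (by omega) 0 _ _ e6 h0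
    have h2 := hat_step _ _ (by omega) 3 _ _ e7 h1
    have h3 := hat_step _ _ (by omega) 2 _ _ e8 h2
    have h4 := hat_step _ _ (by omega) 1 _ _ e9 h3
    have h5 := hat_step _ _ (by omega) 2 _ _ e10 h4
    exact ⟨h5, odd (m + 1) h5⟩

theorem rho_cs (m : ℕ) : rho (cs m) = gX 2 := by
  induction m with
  | zero => rfl
  | succ m ih =>
    have h : cs m ≠ [] := by cases m <;> simp [cs]
    simp only [cs]
    rw [rho_cons _ _ (by simp), rho_cons _ _ (by simp), rho_cons _ _ (by simp),
      rho_cons _ _ (by simp), rho_cons _ _ h, ih]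
    decide +kernel

theorem vs_ne_zero (m : ℕ) : vs (2 * m) ≠ 0 := by
  intro h
  have h1 := (hat_vs m).1 (cs (2 * m)) (cs_length (2 * m))
  rw [h, rho_cs] at h1
  have h2 := hat_zero (cs (2 * m))
  have h3 : hat (cs (2 * m)) 0 = 0 := h2
  rw [h3] at h1
  revert h1
  decide +kernel

end Pool.Agent.H6.FK
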