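import Pool.Agent.H85.FK.K3
import Pool.Agent.H6.FK.HatB

/-!
The rack with four nodes `a, p, b, tau`, each doubled, and unboundedly long nonvanishing iterated
deletions.
-/

namespace Pool.Agent.H6.FK

open Pool.Agent.H85.FK (L L_nil L_cons dl Lw Lw_nil Lw_cons eqv)

abbrev VB := Fin 4 × ZMod 2

/-- the rack operation -/
def sB (a x : VB) : VB := (x.1, x.2 + Mm a.1 x.1)

/-- counting letters acting on the node `i` -/
def cB (i : Fin 4) : List VB → ZMod 2
  | [] => 0
  | x :: w => Mm x.1 i + cB i w

/-- action of a word on a letter -/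
def gact (w : List VB) (a : VB) : VB := (a.1, a.2 + cB a.1 w)

/-- right deletion -/
def rdel (a : VB) : List VB → (List VB → ZMod 2) → ZMod 2
  | [], _ => 0
  | x :: w, F => eqv (gact w a) x * F w + rdel a w (fun v => F (x :: v))

theorem rdel_add (a : VB) (w : List VB) : ∀ F G : List VB → ZMod 2,
    rdel a w (F + G) = rdel a w F + rdel a w G := by
  induction w with
  | nil => intro F G; simp [rdel]
  | cons x w ih =>
    intro F G
    have h := ih (fun v => F (x :: v)) (fun v => G (x :: v))
    have e : (fun v => (F + G) (x :: v)) =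
      (fun v => F (x :: v)) + (fun v => G (x :: v)) := rfl
    simp only [rdel]
    rw [e, h, Pi.add_apply]; ring

theorem rdel_smul (a : VB) (w : List VB) : ∀ (c : ZMod 2) (F : List VB → ZMod 2),
    rdel a w (c • F) = c * rdel a w F := by
  induction w with
  | nil => intro c F; simp [rdel]
  | cons x w ih =>
    intro c F
    have h := ih c (fun v => F (x :: v))
    have e : (fun v => (c • F) (x :: v)) = c • (fun v => F (x :: v)) := rfl
    simp only [rdel]
    rw [e, h, Pi.smul_apply, smul_eq_mul]; ring

/-- right deletion as a linear map -/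
def R (a : VB) : (List VB → ZMod 2) →ₗ[ZMod 2] (List VB → ZMod 2) where
  toFun F := fun w => rdel a w F
  map_add' F G := by funext w; exact rdel_add a w F G
  map_smul' c F := by funext w; exact rdel_smul a w c F

theorem R_nil (a : VB) (F : List VB → ZMod 2) : R a F [] = 0 := rfl

theorem R_cons (a : VB) (F : List VB → ZMod 2) (x : VB) (w : List VB) :
    R a F (x :: w) = eqv (gact w a) x * F w + R a (fun v => F (x :: v)) w := rfl

abbrev LV (a : VB) : (List VB → ZMod 2) →ₗ[ZMod 2] (List VB → ZMod 2) := L sB eqv a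

theorem eqv_aux : ∀ (a1 b1 x1 : Fin 4) (a2 x2 n : ZMod 2),
    eqv ((a1, a2 + n) : VB) (x1, x2 + Mm b1 x1) =
      eqv ((a1, a2 + (n + Mm b1 a1)) : VB) (x1, x2) := by
  decide +kernel

theorem eqv_sB (a b x : VB) (w : List VB) :
    eqv (gact w a) (sB b x) = eqv (a.1, a.2 + (cB a.1 w + Mm b.1 a.1)) x :=
  eqv_aux a.1 b.1 x.1 a.2 x.2 (cB a.1 w)

theorem z2_aux : ∀ x y : ZMod 2, x + (y + x) = y := by decide

/-- Deletion changes the counting function in a controlled way. -/
theorem L_count (i : Fin 4) (b : VB) (w : List VB) : ∀ (P : ZMod 2 → ZMod 2)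
    (F : List VB → ZMod 2),
    LV b (fun v => P (cB i v) * F v) w = P (cB i w + Mm b.1 i) * LV b F w := by
  induction w with
  | nil => intro P F; simp [L_nil]
  | cons x w ih =>
    intro P F
    rw [L_cons, L_cons]
    have e : (fun v => P (cB i (sB b x :: v)) * F (sB b x :: v)) =
        fun v => (fun n => P (Mm x.1 i + n)) (cB i v) * F (sB b x :: v) := by
      funext v; rfl
    rw [e]
    have e' := ih (fun n => P (Mm x.1 i + n)) (fun v => F (sB b x :: v))
    unfold LV at e'
    rw [e']
    simp only [cB]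
    rw [add_assoc, mul_add]
    congr 1
    by_cases h : x = b
    · subst h
      rw [z2_aux]; ring
    · simp [eqv, h]

theorem R_L (a b : VB) (w : List VB) : ∀ F : List VB → ZMod 2,
    R a (LV b F) w = LV b (R a F) w := by
  induction w with
  | nil => intro F; rfl
  | cons x w ih =>
    intro F
    rw [R_cons, L_cons]
    have e1 : (fun v => LV b F (x :: v)) =
        eqv b x • F + LV b (fun v => F (sB b x :: v)) := by
      funext v; rw [L_cons]; rfl
    have e2 : (fun v => R a F (sB b x :: v)) =
        (fun v => (fun n => eqv (a.1, a.2 + (n + Mm b.1 a.1)) x) (cB a.1 v)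
          * F v) + R a (fun v => F (sB b x :: v)) := by
      funext v
      rw [R_cons, Pi.add_apply, eqv_sB]
    rw [e1, e2, map_add, map_add, map_smul]
    simp only [Pi.add_apply, Pi.smul_apply, smul_eq_mul]
    have e3 := L_count a.1 b w (fun n => eqv (a.1, a.2 + (n + Mm b.1 a.1)) x) F
    unfold LV at e3 ih ⊢
    rw [e3, ih]
    have h4 : cB a.1 w + Mm b.1 a.1 + Mm b.1 a.1 = cB a.1 w := by
      generalize cB a.1 w = n
      generalize Mm b.1 a.1 = k
      revert n k; decide
    simp only [h4]
    rw [show gact w a = (a.1, a.2 + cB a.1 w) from rfl]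
    ring

theorem R_L' (a b : VB) (F : List VB → ZMod 2) : R a (LV b F) = LV b (R a F) :=
  funext fun w => R_L a b w F

theorem R_dl (a : VB) : R a (dl VB (ZMod 2)) = LV a (dl VB (ZMod 2)) := by
  funext w
  cases w with
  | nil => rfl
  | cons x w =>
    rw [R_cons, L_cons]
    have e1 : (fun v => dl VB (ZMod 2) (x :: v)) = 0 := rfl
    have e2 : (fun v => dl VB (ZMod 2) (sB a x :: v)) = 0 := rfl
    rw [e1, e2, map_zero, map_zero]
    cases w with
    | nil => simp [gact, cB]
    | cons y w => simp [dl]

theorem R_Lw (a : VB) (u : List VB) :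
    R a (Lw sB eqv u (dl VB (ZMod 2))) = Lw sB eqv (u ++ [a]) (dl VB (ZMod 2)) := by
  induction u with
  | nil => exact R_dl a
  | cons b u ih => rw [Lw_cons, R_L', ih]; rfl

theorem socle (a : VB) (w : List VB) : ∀ v : List (Fin 4) → ZMod 2,
    (LV a (fun w => v (w.map Prod.fst)) + R a (fun w => v (w.map Prod.fst))) w =
      D a.1 (w.map Prod.fst) v := by
  induction w with
  | nil => intro v; simp [L_nil, R_nil, D]
  | cons x w ih =>
    intro v
    have h := ih (fun u => v (x.1 :: u))
    rw [Pi.add_apply] at h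
    rw [Pi.add_apply, L_cons, R_cons, List.map_cons]
    simp only [D]
    rw [← h]
    have e1 : (fun v' : List VB => v (List.map Prod.fst (sB a x :: v'))) =
        fun v' => v (x.1 :: List.map Prod.fst v') := rfl
    have e2 : (fun v' : List VB => v (List.map Prod.fst (x :: v'))) =
        fun v' => v (x.1 :: List.map Prod.fst v') := rfl
    rw [e1, e2]
    have e3 : eqv a x + eqv (gact w a) x =
        if x.1 = a.1 then ncnt a.1 (w.map Prod.fst) else 0 := by
      have e4 : cB a.1 w = ncnt a.1 (w.map Prod.fst) := by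
        clear h e1 e2 ih
        induction w with
        | nil => rfl
        | cons y w ih => simp only [cB, List.map_cons, ncnt, ih]
      rw [← e4]
      simp only [gact]
      generalize cB a.1 w = n
      clear h e1 e2 e4 ih
      obtain ⟨a1, a2⟩ := a
      obtain ⟨x1, x2⟩ := x
      simp only [eqv, Prod.mk.injEq]
      by_cases hx : x1 = a1
      · simp only [hx, true_and, if_true]
        revert a2 x2 n; decide
      · simp [hx]
    rw [← e3]
    ring

theorem socle' (a : VB) (v : List (Fin 4) → ZMod 2) :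
    LV a (fun w => v (w.map Prod.fst)) + R a (fun w => v (w.map Prod.fst)) =
      fun w => D a.1 (w.map Prod.fst) v :=
  funext fun w => socle a w v

/-- the span of iterated deletions with letters in `E`, of length `d` -/
def Sp (E : Set VB) (d : ℕ) : Submodule (ZMod 2) (List VB → ZMod 2) :=
  Submodule.span (ZMod 2) {F | ∃ u : List VB, (∀ x ∈ u, x ∈ E) ∧ u.length = d ∧
    F = Lw sB eqv u (dl VB (ZMod 2))}

theorem Sp_step (E : Set VB) (d : ℕ) (a : VB) (ha : a ∈ E) (F : List VB → ZMod 2)
    (hF : F ∈ Sp E d) : LV a F + R a F ∈ Sp E (d + 1) := by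
  refine Submodule.span_induction (p := fun F _ => LV a F + R a F ∈ Sp E (d + 1))
    ?_ ?_ ?_ ?_ hF
  · rintro _ ⟨u, hu, hd, rfl⟩
    apply Submodule.add_mem
    · apply Submodule.subset_span
      refine ⟨a :: u, ?_, by simp [hd], rfl⟩
      intro x hx
      rcases List.mem_cons.1 hx with h | h
      · rw [h]; exact ha
      · exact hu x h
    · apply Submodule.subset_span
      refine ⟨u ++ [a], ?_, by simp [hd], R_Lw a u⟩
      intro x hx
      rcases List.mem_append.1 hx with h | h
      · exact hu x h
      · rw [List.mem_singleton.1 h]; exact ha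
  · simp
  · intro x y _ _ hx hy
    rw [map_add, map_add]
    have : LV a x + LV a y + (R a x + R a y) = (LV a x + R a x) + (LV a y + R a y) := by abel
    rw [this]
    exact Submodule.add_mem _ hx hy
  · intro c x _ hx
    rw [map_smul, map_smul, ← smul_add]
    exact Submodule.smul_mem _ _ hx

/-- the five letters used: `a_0, p_0, b_0, b_1, tau_0` -/
def E5 : Set VB := {(0, 0), (1, 0), (2, 0), (2, 1), (3, 0)}

theorem start : (fun w : List VB => vs 0 (w.map Prod.fst)) =
    LV (2, 0) (dl VB (ZMod 2)) + LV (2, 1) (dl VB (ZMod 2)) := by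
  funext w
  rw [Pi.add_apply]
  cases w with
  | nil => rfl
  | cons x w =>
    rw [L_cons, L_cons]
    have e1 : (fun v => dl VB (ZMod 2) (sB (2, 0) x :: v)) = 0 := rfl
    have e2 : (fun v => dl VB (ZMod 2) (sB (2, 1) x :: v)) = 0 := rfl
    rw [e1, e2, map_zero, map_zero]
    cases w with
    | nil =>
      simp only [vs, dl, List.map_cons, List.map_nil, Pi.zero_apply]
      clear e1 e2
      revert x; decide +kernel
    | cons y w => simp [dl, vs]

theorem Sp_D (E : Set VB) (d : ℕ) (a : VB) (ha : a ∈ E) (v : List (Fin 4) → ZMod 2)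
    (h : (fun w : List VB => v (w.map Prod.fst)) ∈ Sp E d) :
    (fun w : List VB => D a.1 (w.map Prod.fst) v) ∈ Sp E (d + 1) := by
  rw [← socle']
  exact Sp_step E d a ha _ h

theorem vs_mem (m : ℕ) : (fun w : List VB => vs m (w.map Prod.fst)) ∈ Sp E5 (5 * m + 1) := by
  induction m with
  | zero =>
    rw [start]
    apply Submodule.add_mem
    · apply Submodule.subset_span
      exact ⟨[(2, 0)], by simp [E5], rfl, rfl⟩
    · apply Submodule.subset_span
      exact ⟨[(2, 1)], by simp [E5], rfl, rfl⟩
  | succ m ih =>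
    have h1 := Sp_D E5 _ (0, 0) (by simp [E5]) _ ih
    have h2 := Sp_D E5 _ (3, 0) (by simp [E5]) (fun u => D 0 u (vs m)) h1
    have h3 := Sp_D E5 _ (2, 0) (by simp [E5]) (fun u => D 3 u (fun u => D 0 u (vs m))) h2
    have h4 := Sp_D E5 _ (1, 0) (by simp [E5])
      (fun u => D 2 u (fun u => D 3 u (fun u => D 0 u (vs m)))) h3
    exact Sp_D E5 _ (2, 0) (by simp [E5])
      (fun u => D 1 u (fun u => D 2 u (fun u => D 3 u (fun u => D 0 u (vs m))))) h4

theorem exists_long (m : ℕ) : ∃ u : List VB, (∀ x ∈ u, x ∈ E5) ∧ u.length = 10 * m + 1 ∧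
    Lw sB eqv u (dl VB (ZMod 2)) ≠ 0 := by
  by_contra hcon
  push Not at hcon
  have h0 : Sp E5 (5 * (2 * m) + 1) = ⊥ := by
    rw [Sp, Submodule.span_eq_bot]
    rintro _ ⟨u, hu, hd, rfl⟩
    exact hcon u hu (by omega)
  have h1 := vs_mem (2 * m)
  rw [h0, Submodule.mem_bot] at h1
  apply vs_ne_zero m
  funext u
  have h2 := congrFun h1 (u.map (fun i => ((i, 0) : VB)))
  have h3 : (u.map (fun i => ((i, 0) : VB))).map Prod.fst = u := by
    rw [List.map_map]
    exact List.map_id u
  simp only [h3] at h2
  exact h2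

end Pool.Agent.H6.FK
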